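import Mathlib
import Pool.Agent.V1195.AccNd

/-!
# ACC for minimal log discrepancies on toric germs, with non-toric boundaries and real ideals

`ToricGerm n K`: an affine toric variety of dimension `n` over `ℂ` with function field `K` and with
a torus fixed point `P`, given by any strictly convex rational cone of dimension `n` (simplicial or
not). The boundary `B` is an arbitrary effective `ℝ`-divisor on it such that `K_X + B` is
`ℝ`-Cartier at `P`, and `I_1 ^ c_1 ... I_q ^ c_q` is a product of real powers of nonzero ideals
whose elements vanish at `P`. The minimal log discrepancy of the triple is taken over all prime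
divisors over the germ.
-/

set_option autoImplicit false

namespace Pool.Agent.Results.MP_df5e61_ag.ToricTriples

open Pool.Agent.H436R3.KT Pool.Agent.TH165.ACC Pool.Agent.W497.Mld Pool.Agent.V1195.Acc

/-- For every dimension `n` and every DCC set `Γ` the set of the minimal log discrepancies `m ≥ 0`
of the triples `(X ∋ P, B, ∏ I_j ^ c_j)` is an ACC set, where `X ∋ P` is a toric germ of dimension
`n`, the coefficients of `B` and the positive exponents `c_j` lie in `Γ`, and either `m` is the log
discrepancy of a monomial valuation, or `B` is nondegenerate at `P` and the ideals `I_j` are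
generated by monomials. -/
theorem result (n : ℕ) (Γ : Set ℝ) (hΓ : Pool.Agent.TH165.ACC.IsDCC Γ) :
    Pool.Agent.TH165.ACC.IsACC {m : ℝ | 0 ≤ m ∧
      ∃ (g : ToricGerm n (FractionRing (MvPolynomial (Fin n) ℂ))) (B : EffDiv g.X)
        (e : LocEq B g.P) (q : ℕ) (I : Fin q → Ideal g.X.R) (c : Fin q → ℝ), CoeffIn B Γ ∧
        (∀ j, I j ≠ ⊥ ∧ (∀ f ∈ I j, g.P f = 0) ∧ c j ∈ Γ ∧ 0 < c j) ∧ IsTriMld e I c m ∧
        (TriComputed e I c m ∨ (NondegBoundary g B ∧ ∀ j, IsMonIdeal g (I j)))} :=
  tri_acc hΓ

end Pool.Agent.Results.MP_df5e61_ag.ToricTriples
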